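import Mathlib
import Pool.Agent.H.MP_08c285_gt.A

set_option autoImplicit false

namespace Pool.Agent.Results.MP_08c285_gt.Yes

open Cardinal Pool.Agent.H.MP_08c285_gt

universe u

theorem result (G : Type u) [Group G] [Infinite G] (h : Normal G) : (#G).IsRegular :=
  H.MP_08c285_gt.main h

end Pool.Agent.Results.MP_08c285_gt.Yes
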